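import Pool.Agent.H.MP_16d9f2.A

namespace Pool.Agent.H.MP_11e589

open Filter Topology Set MeasureTheory CompactlySupported

variable {L : Type} [TopologicalSpace L] [CompactSpace L] [T2Space L]

theorem bct {V : Type} [AddCommGroup V] [Module ℝ V] (j : V →ₗ[ℝ] C(L, ℝ)) (Φ : V →ₗ[ℝ] ℝ)
    (h : ∀ v, Φ v ≤ ‖j v‖) (v : ℕ → V) {M δ : ℝ} (v1 : ∀ n, ‖j (v n)‖ ≤ M)
    (v2 : ∀ k, Tendsto (fun n => j (v n) k) atTop (𝓝 0)) (δ0 : 0 < δ) : ∃ n, Φ (v n) < δ := by
  by_contra k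
  push Not at k
  obtain ⟨g, s, g1, g2⟩ := geometric_hahn_banach_open (s := {φ : C(L, ℝ) | MapsTo φ univ (Iio δ)})
    (t := {ψ | ∃ v, δ ≤ Φ v ∧ ∀ k, |j v k| ≤ ψ k})
    (fun a ha b hb s t s0 t0 st k _ => convex_Iio δ (ha (mem_univ k)) (hb (mem_univ k)) s0 t0 st)
    (ContinuousMap.isOpen_setOfPred_mapsTo isCompact_univ isOpen_Iio)
    (by
      rintro a ⟨v, a1, a2⟩ b ⟨w, b1, b2⟩ s t s0 t0 st
      refine ⟨s • v + t • w, ?_, fun k => ?_⟩
      · simpa using convex_Ici δ a1 b1 s0 t0 st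
      · simp only [map_add, map_smul, ContinuousMap.add_apply, ContinuousMap.smul_apply, smul_eq_mul]
        refine (abs_add_le _ _).trans ?_
        rw [abs_mul, abs_mul, abs_of_nonneg s0, abs_of_nonneg t0]
        gcongr
        exacts [a2 k, b2 k])
    (disjoint_left.2 fun a ha ⟨v, a1, a2⟩ => ((a1.trans (h v)).trans_lt
      ((ContinuousMap.norm_lt_iff _ δ0).2 fun k => (a2 k).trans_lt (ha (mem_univ k)))).false)
  have s0 : 0 < s := by simpa using g1 0 fun k _ => δ0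
  let Λ : C_c(L, ℝ) →ₚ[ℝ] ℝ := PositiveLinearMap.mk₀
    { toFun := fun f => g f.toContinuousMap
      map_add' := fun a b => g.map_add _ _
      map_smul' := fun c a => g.map_smul _ _ } fun f hf => not_lt.1 fun l => by
      have l : g f.toContinuousMap < 0 := l
      have := g1 ((s / g f.toContinuousMap) • f.toContinuousMap) fun k _ => lt_of_le_of_lt
        (mul_nonpos_of_nonpos_of_nonneg (div_neg_of_pos_of_neg s0 l).le (hf k)) δ0
      simp [l.ne] at this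
  borelize L
  have t := tendsto_integral_of_dominated_convergence (μ := RealRMK.rieszMeasure Λ)
    (F := fun n k => |j (v n) k|) (f := fun _ => 0) (fun _ => M)
    (fun n => (j (v n)).continuous.abs.aestronglyMeasurable) (integrable_const M)
    (fun n => .of_forall fun k => by
      simpa using ((j (v n)).norm_coe_le_norm k).trans (v1 n))
    (.of_forall fun k => by simpa using (v2 k).abs)
  rw [integral_zero] at t
  refine (ge_of_tendsto' t fun n => ?_).not_gt s0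
  exact (g2 |j (v n)| ⟨_, k n, fun _ => le_rfl⟩).trans_eq (RealRMK.integral_rieszMeasure Λ
    (CompactlySupportedContinuousMap.continuousMapEquiv |j (v n)|)).symm

variable {X : Type} [NormedAddCommGroup X] [NormedSpace ℝ X]

theorem hel (Φ : (X →L[ℝ] ℝ) →L[ℝ] ℝ) {δ : ℝ} (δ0 : 0 ≤ δ)
    (h : ∀ x, δ < ‖Φ - NormedSpace.inclusionInDoubleDual ℝ X x‖) {F : Set X} (hF : F.Finite) :
    ∃ f : X →L[ℝ] ℝ, ‖f‖ ≤ 1 ∧ (∀ x ∈ F, f x = 0) ∧ δ ≤ Φ f := by
  by_contra k
  push Not at k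
  have := hF.to_subtype
  obtain ⟨W, hW⟩ : ∃ W : Submodule ℝ (X →L[ℝ] ℝ), ∀ f, f ∈ W ↔ ∀ x ∈ F, f x = 0 :=
    ⟨⟨⟨⟨{f | ∀ x ∈ F, f x = 0}, fun a b x h => by simp [a x h, b x h]⟩, by simp⟩,
      fun c f a x h => by simp [a x h]⟩, fun _ => Iff.rfl⟩
  have b : ∀ f ∈ W, Φ f ≤ δ * ‖f‖ := fun f hf => by
    by_cases f0 : f = 0
    · simp [f0]
    have := (k _ (by simp [norm_smul, f0]) ((hW _).1 (W.smul_mem ‖f‖⁻¹ hf))).le
    rwa [map_smul, smul_eq_mul, inv_mul_le_iff₀ (norm_pos_iff.2 f0), mul_comm] at this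
  obtain ⟨Ψ, p1, p2⟩ := exists_extension_of_le_sublinear (Φ.toLinearMap.toPMap W)
    (fun f => δ * ‖f‖) (fun c hc g => by simp [norm_smul, abs_of_pos hc, mul_left_comm])
    (fun a b => by
      rw [← mul_add]
      gcongr
      exact norm_add_le _ _) fun g => b g.1 g.2
  obtain ⟨x, hx⟩ : Φ.toLinearMap - Ψ ∈ LinearMap.range
      ((ContinuousLinearMap.coeLM ℝ).comp (NormedSpace.inclusionInDoubleDual ℝ X).toLinearMap) := by
    refine (Submodule.span_le.2 ?_) (mem_span_of_iInf_ker_le_ker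
      (L := fun x : F => (NormedSpace.inclusionInDoubleDual ℝ X x).toLinearMap) fun f hf => ?_)
    · rintro _ ⟨x, rfl⟩
      exact ⟨x, rfl⟩
    · exact sub_eq_zero.2 (p1 ⟨f, (hW f).2 fun x h => (Submodule.mem_iInf _).1 hf ⟨x, h⟩⟩).symm
  refine (h x).not_ge (ContinuousLinearMap.opNorm_le_bound _ δ0 fun f => ?_)
  have e : f x = Φ f - Ψ f := congrArg (fun c => c f) hx
  have : (Φ - NormedSpace.inclusionInDoubleDual ℝ X x) f = Ψ f := by
    show Φ f - f x = _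
    linarith
  rw [this]
  exact abs_le.2 ⟨by have := p2 (-f); simp at this; linarith, p2 f⟩

theorem kr [CompleteSpace X] (κ : L → X) (j : (X →L[ℝ] ℝ) →ₗ[ℝ] C(L, ℝ))
    (hj : ∀ f l, j f l = f (κ l)) {M : ℝ} (hM : ∀ f, ‖j f‖ ≤ M * ‖f‖) (Φ : (X →L[ℝ] ℝ) →ₗ[ℝ] ℝ)
    (h : ∀ f, Φ f ≤ ‖j f‖) : ∃ u, ∀ f, Φ f = f u := by
  by_contra k
  have b : ∀ f, ‖Φ f‖ ≤ M * ‖f‖ := fun f => le_trans (abs_le.2
    ⟨by have := h (-f); simp at this; linarith, h f⟩) (hM f)
  have cl := (NormedSpace.inclusionInDoubleDualLi ℝ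
    (E := X)).isometry.isUniformInducing.isComplete_range.isClosed.isOpen_compl
  obtain ⟨δ, δ0, hδ⟩ := Metric.isOpen_iff.1 cl
    (Φ.mkContinuous M b) fun ⟨u, hu⟩ => k ⟨u, fun f => (congrArg (fun c => c f) hu).symm⟩
  have : ∀ F : Set L, ∃ f : X →L[ℝ] ℝ, F.Finite → ‖f‖ ≤ 1 ∧ (∀ l ∈ F, f (κ l) = 0) ∧ δ / 2 ≤ Φ f :=
    fun F => by
      by_cases hF : F.Finite
      · exact (hel (Φ.mkContinuous M b) (half_pos δ0).le (fun x => (half_lt_self δ0).trans_le
          (not_lt.1 fun a => hδ (mem_ball_iff_norm'.2 a) ⟨x, rfl⟩)) (hF.image κ)).imp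
          fun f a _ => ⟨a.1, forall_mem_image.1 a.2.1, a.2.2⟩
      · exact ⟨0, fun a => (hF a).elim⟩
  choose c hc using this
  have : ∀ (G : Set (X →L[ℝ] ℝ)) (n : ℕ), ∃ F : Set L, F.Finite ∧ (G.Finite → ∀ l, ∃ l' ∈ F,
      ∀ g ∈ G, dist (g (κ l')) (g (κ l)) < 1 / (n + 1)) := fun G n => by
    by_cases hG : G.Finite
    · obtain ⟨t, ht⟩ := CompactSpace.elim_nhds_subcover
        (fun l' => {l | ∀ g ∈ G, dist (g (κ l')) (g (κ l)) < 1 / (n + 1)}) fun l' =>
          (eventually_all_finite hG).2 fun g _ => by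
            simp only [← hj]
            exact (isOpen_lt (by fun_prop) continuous_const).mem_nhds (by simp; positivity)
      exact ⟨t, t.finite_toSet, fun _ l => by simpa using (eq_univ_iff_forall.1 ht l)⟩
    · exact ⟨∅, finite_empty, fun a => (hG a).elim⟩
  choose net n1 n2 using this
  obtain ⟨s, s0, s1⟩ : ∃ s : ℕ → Set (X →L[ℝ] ℝ) × Set L, s 0 = (∅, ∅) ∧ ∀ n, s (n + 1) =
      (insert (c (s n).2) (s n).1, (s n).2 ∪ net (insert (c (s n).2) (s n).1) n) :=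
    ⟨fun n => Nat.rec (motive := fun _ => Set (X →L[ℝ] ℝ) × Set L) (∅, ∅)
      (fun n p => (insert (c p.2) p.1, p.2 ∪ net (insert (c p.2) p.1) n)) n, rfl, fun _ => rfl⟩
  have f : ∀ n, (s n).1.Finite ∧ (s n).2.Finite := fun n => by
    induction n with
    | zero => simp [s0]
    | succ n ih => rw [s1]; exact ⟨ih.1.insert _, ih.2.union (n1 _ _)⟩
  have m : Monotone s := monotone_nat_of_le_succ fun n => by
    rw [s1]; exact ⟨subset_insert _ _, subset_union_left⟩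
  refine (bct j Φ h (fun n => c (s n).2) (M := |M|) (fun n => (hM _).trans
    ((mul_le_mul_of_nonneg_right (le_abs_self M) (norm_nonneg _)).trans
      (mul_le_of_le_one_right (abs_nonneg _) (hc _ (f n).2).1))) (fun l => ?_) (half_pos δ0)).elim
    fun n hn => hn.not_ge (hc _ (f n).2).2.2
  refine (tendsto_iff_ultrafilter _ _ _).2 fun U hU => ?_
  obtain ⟨g, -, hg⟩ := MP_35c8d5.ulim U (fun n => c (s n).2) zero_le_one
    (.of_forall fun n => (hc _ (f n).2).1)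
  choose a a1 a2 using fun n => n2 _ n ((f n).1.insert (c (s n).2)) l
  obtain ⟨z, hz⟩ : ∃ z, Tendsto a (hyperfilter ℕ) (𝓝 z) :=
    ⟨_, ((hyperfilter ℕ).map a).le_nhds_lim⟩
  have t : ∀ g : X →L[ℝ] ℝ, Tendsto (fun n => g (κ (a n))) (hyperfilter ℕ) (𝓝 (g (κ z))) :=
    fun g => by simpa [hj, Function.comp_def] using ((j g).continuous.tendsto z).comp hz
  have e1 : g (κ z) = 0 := tendsto_nhds_unique (t g) (tendsto_const_nhds.congr fun n =>
    (tendsto_nhds_unique (hg _) (tendsto_const_nhds.congr' (hU ((eventually_ge_atTop (n + 1)).mono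
      fun i hi => ((hc _ (f i).2).2.1 _ ((m hi).2 (by rw [s1]; exact .inr (a1 n)))).symm)))).symm)
  have e2 : ∀ i, c (s i).2 (κ z) = c (s i).2 (κ l) := fun i => tendsto_nhds_unique (t _)
    (Tendsto.mono_left (tendsto_iff_dist_tendsto_zero.2 (squeeze_zero' (.of_forall fun _ =>
      dist_nonneg) ((eventually_gt_atTop i).mono fun n hn => (a2 n _ (.inr ((m hn).1
        (by rw [s1]; exact .inl rfl)))).le) tendsto_one_div_add_atTop_nhds_zero_nat))
      Nat.hyperfilter_le_atTop)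
  simpa [hj, e1, e2] using hg (κ z)

end Pool.Agent.H.MP_11e589
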