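import Pool.Agent.H.MP_11e589.A

namespace Pool.Agent.H.MP_11e589

open Filter Topology Set Cardinal MP_16d9f2

variable {X : Type} [NormedAddCommGroup X] [NormedSpace ℝ X] [CompleteSpace X]

theorem proj {U : Submodule ℝ X} (hU : IsClosed (U : Set X)) (B : Set (X →L[ℝ] ℝ))
    (h : ∀ u ∈ U, ∀ z, (∀ g ∈ B, g u = g z) → ‖u‖ ≤ ‖z‖) {K : Set X}
    (hK : Dense (Submodule.span ℝ K : Set X)) (e : ∀ z ∈ K, ∃ u ∈ U, ∀ g ∈ B, g u = g z) :
    ∃ P : X →L[ℝ] X, (∀ z, P z ∈ U ∧ ∀ g ∈ B, g (P z) = g z) ∧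
      ∀ z, ∀ u ∈ U, (∀ g ∈ B, g u = g z) → P z = u := by
  have q : ∀ u ∈ U, ∀ v ∈ U, ∀ z w, (∀ g ∈ B, g u = g z) → (∀ g ∈ B, g v = g w) →
      ‖u - v‖ ≤ ‖z - w‖ := fun u a v b z w c d =>
    h _ (sub_mem a b) _ fun g k => by simp [c g k, d g k]
  have : ∀ z, ∃ u ∈ U, ∀ g ∈ B, g u = g z := fun z => by
    refine closure_minimal (t := {z | ∃ u ∈ U, ∀ g ∈ B, g u = g z}) (fun x hx => ?_)
      (isClosed_of_closure_subset fun z hz => ?_) (hK z)
    · induction hx using Submodule.span_induction with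
      | mem x h => exact e x h
      | zero => exact ⟨0, U.zero_mem, fun _ _ => rfl⟩
      | add x y _ _ a b =>
        obtain ⟨u, a1, a2⟩ := a
        obtain ⟨v, b1, b2⟩ := b
        exact ⟨u + v, add_mem a1 b1, fun g k => by simp [a2 g k, b2 g k]⟩
      | smul c x _ a =>
        obtain ⟨u, a1, a2⟩ := a
        exact ⟨c • u, U.smul_mem _ a1, fun g k => by simp [a2 g k]⟩
    · obtain ⟨x, x1, x2⟩ := mem_closure_iff_seq_limit.1 hz
      choose u u1 u2 using x1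
      obtain ⟨v, hv⟩ := cauchySeq_tendsto_of_complete (u := u) (Metric.cauchySeq_iff.2 fun ε hε =>
        (Metric.cauchySeq_iff.1 x2.cauchySeq ε hε).imp fun N k m a n b => by
          have := k m a n b
          rw [dist_eq_norm] at this ⊢
          exact (q _ (u1 m) _ (u1 n) _ _ (u2 m) (u2 n)).trans_lt this)
      exact ⟨v, hU.mem_of_tendsto hv (.of_forall u1), fun g k => tendsto_nhds_unique
        ((g.continuous.tendsto v).comp hv) (((g.continuous.tendsto z).comp x2).congr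
          fun n => (u2 n g k).symm)⟩
  choose p p1 p2 using this
  have o : ∀ z, ∀ u ∈ U, (∀ g ∈ B, g u = g z) → p z = u := fun z u a b => by
    simpa [sub_eq_zero] using q _ (p1 z) u a z z (p2 z) b
  exact ⟨LinearMap.mkContinuous ⟨⟨p, fun a b => o _ _ (add_mem (p1 a) (p1 b)) fun g k => by
    simp [p2 _ g k]⟩, fun c a => o _ _ (U.smul_mem _ (p1 a)) fun g k => by simp [p2 _ g k]⟩ 1
    fun z => by simpa using h _ (p1 z) z (p2 z), fun z => ⟨p1 z, p2 z⟩, o⟩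

variable {L : Type} [TopologicalSpace L] [CompactSpace L] [T2Space L] [Nonempty L] (κ : L → X)
  (j : (X →L[ℝ] ℝ) →ₗ[ℝ] C(L, ℝ)) (hj : ∀ f l, j f l = f (κ l)) {M : ℝ}
  (hM : ∀ f, ‖j f‖ ≤ M * ‖f‖) (hK : Dense (Submodule.span ℝ (range κ) : Set X))

include hj hM hK

theorem skel : ∃ (A : Set X → Set X) (B : Set X → Set (X →L[ℝ] ℝ)) (P : Set X → X →L[ℝ] X),
    (∀ T, #(A T) ≤ max #T ℵ₀ ∧ #(B T) ≤ max #T ℵ₀) ∧ (∀ T z, ‖P T z‖ ≤ ‖z‖) ∧
    (∀ T z, P T z ∈ closure (A T)) ∧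
    (∀ S T, S ⊆ T → ∀ z, P T (P S z) = P S z ∧ P S (P T z) = P S z) ∧
    (∀ T, ∀ x ∈ T, P T x = x) ∧ (∀ T z, (∀ g ∈ B T, g z = 0) → P T z = 0) ∧
    ∀ T l (f : X →L[ℝ] ℝ), |f (P T (κ l))| ≤ ‖j f‖ := by
  choose N N1 N2 using exists_dual_vector'' ℝ (E := X)
  have : ∀ g : X →L[ℝ] ℝ, ∃ m, ∀ l, |g (κ l)| ≤ |g (κ m)| := fun g => by
    obtain ⟨m, -, h⟩ := isCompact_univ.exists_isMaxOn univ_nonempty
      (j g).continuous.abs.continuousOn
    exact ⟨m, fun l => by simpa [hj] using h (mem_univ l)⟩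
  choose m hm using this
  have b : ∀ f l, |f (κ l)| ≤ ‖j f‖ := fun f l => hj f l ▸ (j f).norm_coe_le_norm l
  obtain ⟨H, h0, h1, h2, h3, -, h5, -⟩ := hull (P := X × (X →L[ℝ] ℝ))
    (fun n : Option ℚ => n.elim (fun a _ => (κ (m a.2), N a.1)) fun (q : ℚ) a b => (q : ℝ) • a + b)
    0 fun x => (x, 0)
  have s : ∀ {V : Type} [NormedAddCommGroup V] [NormedSpace ℝ V] (π : X × (X →L[ℝ] ℝ) →ₗ[ℝ] V) T,
      ∃ W : Submodule ℝ V, (W : Set V) = closure (π '' H T) := fun π T =>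
    sub _ ⟨0, h0 T, by simp⟩
      (by
        rintro _ ⟨a, ha, rfl⟩ _ ⟨b, hb, rfl⟩
        exact ⟨_, h2 T (some 1) a ha b hb, by simp⟩)
      (by
        rintro q _ ⟨a, ha, rfl⟩
        exact ⟨_, h2 T (some q) a ha 0 (h0 T), by simp⟩)
  choose U hU using s (LinearMap.fst ℝ _ _)
  choose Y hY using s (LinearMap.snd ℝ _ _)
  have cU : ∀ T, IsClosed (U T : Set X) := fun T => hU T ▸ isClosed_closure
  have n : ∀ T, ∀ u ∈ U T, ∀ z, (∀ g ∈ Prod.snd '' H T, g u = g z) → ‖u‖ ≤ ‖z‖ := fun T u hu z k => by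
    rw [← SetLike.mem_coe, hU] at hu
    have : u ∈ {a | ‖a‖ ≤ ‖a - u‖ + ‖z‖} := closure_minimal (by
      rintro _ ⟨a, ha, rfl⟩
      have q : ∀ v, N a.1 v ≤ ‖v‖ := fun v => (le_abs_self _).trans (((N a.1).le_opNorm v).trans
        (mul_le_of_le_one_left (norm_nonneg _) (N1 _)))
      have := q (a.1 - u)
      rw [map_sub, N2, k (N a.1) ⟨_, h2 T none a ha a ha, rfl⟩] at this
      exact (sub_le_iff_le_add.1 this).trans (add_le_add le_rfl (q z)))
      (isClosed_le (by fun_prop) (by fun_prop)) hu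
    simpa using this
  have e : ∀ T l, ∃ u ∈ U T, (∀ g ∈ Prod.snd '' H T, g u = g (κ l)) ∧
      ∀ f : X →L[ℝ] ℝ, |f u| ≤ ‖j f‖ := fun T l => by
    obtain ⟨p, hp⟩ : ∃ p : (X →L[ℝ] ℝ) → ℝ, ∀ f, p f = ⨆ l : {l // κ l ∈ U T}, |f (κ l)| :=
      ⟨_, fun _ => rfl⟩
    have p1 : ∀ f l, κ l ∈ U T → |f (κ l)| ≤ p f := fun f l h => hp f ▸
      le_ciSup (f := fun l : {l // κ l ∈ U T} => |f (κ l)|)
        ⟨‖j f‖, forall_mem_range.2 fun l => b f l⟩ ⟨l, h⟩
    have p2 : ∀ f c, 0 ≤ c → (∀ l, κ l ∈ U T → |f (κ l)| ≤ c) → p f ≤ c := fun f c c0 h =>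
      hp f ▸ Real.iSup_le (fun l => h l.1 l.2) c0
    have p0 : ∀ f, 0 ≤ p f := fun f => hp f ▸ Real.iSup_nonneg fun _ => abs_nonneg _
    obtain ⟨Φ, q1, q2⟩ := exists_extension_of_le_sublinear
      ((NormedSpace.inclusionInDoubleDual ℝ X (κ l)).toLinearMap.toPMap (Y T)) p
      (fun c hc g => by simp [hp, abs_mul, abs_of_pos hc, Real.mul_iSup_of_nonneg hc.le])
      (fun f g => p2 _ _ (add_nonneg (p0 f) (p0 g)) fun l h => (abs_add_le _ _).trans
        (add_le_add (p1 f l h) (p1 g l h))) fun ⟨g, hg⟩ => by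
        change g ∈ (Y T : Set _) at hg
        rw [hY] at hg
        show g (κ l) ≤ p g
        refine le_of_forall_pos_le_add fun ε hε => ?_
        obtain ⟨_, ⟨a, ha, rfl⟩, k⟩ := Metric.mem_closure_iff.1 hg (ε / (2 * (|M| + 1)))
          (by positivity)
        rw [dist_eq_norm, lt_div_iff₀ (by positivity)] at k
        have r : ∀ l, |g (κ l) - a.2 (κ l)| ≤ ε / 2 := fun l => (b (g - a.2) l).trans ((hM _).trans
          (by
            have : ‖g - a.2‖ * (2 * (|M| + 1)) < ε := k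
            nlinarith [norm_nonneg (g - a.2), le_abs_self M]))
        have := p1 g (m a.2) (by
          rw [← SetLike.mem_coe, hU]
          exact subset_closure ⟨_, h2 T none a ha a ha, rfl⟩)
        linarith [(abs_le.1 (r l)).2, le_abs_self (a.2 (κ l)), hm a.2 l,
          abs_sub_abs_le_abs_sub (a.2 (κ (m a.2))) (g (κ (m a.2))),
          abs_sub_comm (a.2 (κ (m a.2))) (g (κ (m a.2))), r (m a.2)]
    have q3 : ∀ f, Φ f ≤ ‖j f‖ := fun f => (q2 f).trans (p2 _ _ (norm_nonneg _) fun l _ => b f l)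
    obtain ⟨u, hu⟩ := kr κ j hj hM Φ q3
    refine ⟨u, ann (cU T) fun f hf => le_antisymm ?_ ?_, fun g hg => (hu g).symm.trans (q1 ⟨g, ?_⟩),
      fun f => abs_le.2 ⟨by simpa [hu, neg_le] using q3 (-f), hu f ▸ q3 f⟩⟩
    · exact hu f ▸ (q2 f).trans (p2 _ _ le_rfl fun l h => by simp [hf _ h])
    · simpa [hu] using (q2 (-f)).trans (p2 _ _ le_rfl fun l h => by simp [hf _ h])
    · change g ∈ (Y T : Set _)
      rw [hY]
      exact subset_closure hg
  choose P P1 P2 using fun T => proj (cU T) _ (n T) hK (forall_mem_range.2 fun l =>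
    (e T l).imp fun u h => ⟨h.1, h.2.1⟩)
  refine ⟨fun T => Prod.fst '' H T, fun T => Prod.snd '' H T, P,
    fun T => ⟨mk_image_le.trans (h5 T), mk_image_le.trans (h5 T)⟩,
    fun T z => n T _ (P1 T z).1 z (P1 T z).2, fun T z => hU T ▸ (P1 T z).1, fun S T h z =>
    ⟨P2 T _ _ ?_ fun _ _ => rfl, P2 S _ _ (P1 S z).1 fun g hg => ((P1 S z).2 g hg).trans
      ((P1 T z).2 g (image_mono (h3 h) hg)).symm⟩, fun T x h => P2 T x x ?_ fun _ _ => rfl,
    fun T z h => P2 T z 0 (zero_mem _) fun g hg => by simp [h g hg], fun T l f => ?_⟩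
  · have := (P1 S z).1
    rw [← SetLike.mem_coe, hU] at this ⊢
    exact closure_mono (image_mono (h3 h)) this
  · rw [← SetLike.mem_coe, hU]
    exact subset_closure ⟨_, h1 T x h, rfl⟩
  · obtain ⟨u, u1, u2, u3⟩ := e T l
    rw [P2 T _ u u1 u2]
    exact u3 f

end Pool.Agent.H.MP_11e589
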