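import Pool.Agent.H.MP_11e589.B

namespace Pool.Agent.H.MP_11e589

open Filter Topology Set Cardinal MP_16d9f2

variable {X : Type} [NormedAddCommGroup X] [NormedSpace ℝ X] [CompleteSpace X]
  {L : Type} [TopologicalSpace L] [CompactSpace L] [T2Space L] [Nonempty L] (κ : L → X)
  (j : (X →L[ℝ] ℝ) →ₗ[ℝ] C(L, ℝ)) (hj : ∀ f l, j f l = f (κ l)) {M : ℝ}
  (hM : ∀ f, ‖j f‖ ≤ M * ‖f‖) (hK : Dense (Submodule.span ℝ (range κ) : Set X))

include hj hM

omit [Nonempty L] in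
theorem nul (P : ℕ → X →L[ℝ] X) (p1 : ∀ n z, ‖P n z‖ ≤ ‖z‖)
    (p2 : ∀ m n, m ≤ n → ∀ z, P n (P m z) = P m z) (u : ℕ → X)
    (u1 : ∀ n (f : X →L[ℝ] ℝ), |f (u n)| ≤ 2 * ‖j f‖) (u2 : ∀ n, P (n + 1) (u n) = u n)
    (u3 : ∀ m n, m ≤ n → P m (u n) = 0) (f : X →L[ℝ] ℝ) {ε : ℝ} (hε : 0 < ε) :
    ∃ n, |f (u n)| < ε := by
  obtain ⟨c, -, hc⟩ := MP_35c8d5.ulim (hyperfilter ℕ)
    (fun n => NormedSpace.inclusionInDoubleDual ℝ X (u n)) (R := 2 * |M|) (by positivity)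
    (.of_forall fun n => ContinuousLinearMap.opNorm_le_bound _ (by positivity) fun f =>
      (u1 n f).trans (by nlinarith [hM f, le_abs_self M, norm_nonneg f]))
  obtain ⟨w, hw⟩ := kr κ j hj hM ((1 / 2 : ℝ) • c.toLinearMap) fun f => by
    have := le_of_tendsto' (hc f) fun n => (le_abs_self _).trans (u1 n f)
    simp
    linarith
  have hu : ∀ g : X →L[ℝ] ℝ, Tendsto (fun n => g (u n)) (hyperfilter ℕ) (𝓝 (g ((2 : ℝ) • w))) :=
    fun g => by
      have := hw g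
      simp at this
      rw [map_smul, ← this]
      simpa using hc g
  have z : ∀ (g : X →L[ℝ] ℝ) m, (∀ n ≥ m, g (u n) = 0) → g ((2 : ℝ) • w) = 0 := fun g m h =>
    tendsto_nhds_unique (hu g) (tendsto_const_nhds.congr' (Nat.hyperfilter_le_atTop
      ((eventually_ge_atTop m).mono fun n hn => (h n hn).symm)))
  generalize (2 : ℝ) • w = v at hu z
  have v1 : ∀ m, P m v = 0 := fun m => NormedSpace.eq_zero_of_forall_dual_eq_zero ℝ fun g =>
    z (g.comp (P m)) m fun n hn => by simp [u3 m n hn]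
  obtain ⟨U, hU⟩ := sub {a | ∃ n, P n a = a} ⟨0, by simp⟩
    (fun a ⟨m, h⟩ b ⟨n, k⟩ => ⟨max m n, by
      rw [map_add, ← h, ← k, p2 _ _ (le_max_left _ _), p2 _ _ (le_max_right _ _)]⟩)
    fun q a ⟨m, h⟩ => ⟨m, by simp [h]⟩
  have v2 : v ∈ U := ann (hU ▸ isClosed_closure) fun g hg => z g 0 fun n _ => hg _ (by
    rw [← SetLike.mem_coe, hU]
    exact subset_closure ⟨_, u2 n⟩)
  rw [← SetLike.mem_coe, hU] at v2
  have v3 : v ∈ {a | ‖a‖ ≤ ‖a - v‖} := closure_minimal (fun a ha => ha.elim fun n h => by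
    simpa [h, v1] using p1 n (a - v)) (isClosed_le (by fun_prop) (by fun_prop)) v2
  have v4 : v = 0 := by simpa using v3
  exact ((hu f).abs.eventually (gt_mem_nhds (by simpa [v4]))).exists

include hK

theorem sys (hs : ¬ TopologicalSpace.SeparableSpace X) :
    ∃ (ι : Type) (_ : LinearOrder ι) (_ : Nonempty ι) (Q : ι → X →L[ℝ] X) (e : ι → X)
      (φ : ι → X →L[ℝ] ℝ) (τ : List ι → ι), τ.Injective ∧ (∀ i z, ‖Q i z‖ ≤ ‖z‖) ∧
      (∀ i k, i ≤ k → ∀ z, Q k (Q i z) = Q i z ∧ Q i (Q k z) = Q i z) ∧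
      (∀ i, ‖e i‖ ≤ 1 ∧ (∀ x, |φ i x| ≤ 2 * ‖x‖) ∧ φ i (e i) = 1) ∧
      (∀ i k, i ≠ k → φ i (e k) = 0) ∧ (∀ x, ∀ ε > 0, ∀ i, ∃ k, i ≤ k ∧ ‖Q k x - x‖ ≤ ε) ∧
      ∀ (S : X →L[ℝ] X) i s, ∃ a, Q i (S (e (τ (a :: s)))) = 0 := by
  obtain ⟨A, B, P, p0, p1, pA, p2, p3, p4, p5⟩ := skel κ j hj hM hK
  obtain ⟨_, ⟨D, hD, rfl⟩, hm⟩ := Cardinal.lt_wf.has_min {c | ∃ D : Set X, Dense D ∧ #D = c}
    ⟨_, univ, dense_univ, rfl⟩
  have a0 : ℵ₀ < #D := not_le.1 fun h => hs ⟨D, le_aleph0_iff_set_countable.1 h, hD⟩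
  have : ∀ S : Set X, ∃ l, #S < #D → P S (κ l) ≠ κ l := fun S => by
    by_contra k
    push Not at k
    have : P S = .id ℝ X := ContinuousLinearMap.ext_on hK (forall_mem_range.2 fun l => (k l).2)
    exact hm _ ⟨A S, fun z => by simpa [this] using pA S z, rfl⟩
      ((p0 S).1.trans_lt (max_lt (k (Classical.arbitrary L)).1 a0))
  choose ch hc using this
  obtain ⟨ι, _, _, ic, ii⟩ : ∃ (ι : Type) (_ : LinearOrder ι) (_ : WellFoundedLT ι), #ι = #D ∧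
      ∀ i : ι, #(Iic i) < #D := ⟨(#D).ord.ToType, inferInstance, inferInstance, by simp, fun i => by
    rw [← Iio_insert]
    exact mk_insert_le.trans_lt (add_lt_of_lt a0.le (by simpa using mk_Iio_lt i)
      (one_lt_aleph0.trans a0))⟩
  obtain ⟨d⟩ := Cardinal.eq.1 ic
  obtain ⟨τ⟩ : Nonempty (List ι ↪ ι) :=
    (Cardinal.le_def _ _).1 ((mk_list_le_max _).trans (by simp [ic, a0.le]))
  obtain ⟨k, hk⟩ : ∃ k : ι → L, ∀ i, k i = ch ((fun a => (d a).1) '' Iio i ∪ (κ ∘ k) '' Iio i) :=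
    ⟨wellFounded_lt.fix fun i r => ch ((fun a => (d a).1) '' Iio i ∪
      range fun a : Iio i => κ (r a.1 a.2)), fun i => by
      rw [WellFounded.fix_eq, image_eq_range (κ ∘ _)]
      rfl⟩
  obtain ⟨T, hT⟩ : ∃ T : Set ι → Set X, ∀ I, T I = (fun a => (d a).1) '' I ∪ (κ ∘ k) '' I :=
    ⟨_, fun _ => rfl⟩
  have mT : ∀ I J, I ⊆ J → T I ⊆ T J := fun I J h => by rw [hT, hT]; gcongr
  have cT : ∀ I : Set ι, #I < #D → #(T I) < #D := fun I h => hT I ▸ (mk_union_le _ _).trans_lt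
    (add_lt_of_lt a0.le (mk_image_le.trans_lt h) (mk_image_le.trans_lt h))
  obtain ⟨u, hu⟩ : ∃ u : ι → X, ∀ i, u i = κ (k i) - P (T (Iio i)) (κ (k i)) := ⟨_, fun _ => rfl⟩
  have u0 : ∀ i, u i ≠ 0 := fun i => by
    rw [hu, sub_ne_zero, hT, hk i]
    exact (hc _ (hT _ ▸ cT _ ((mk_le_mk_of_subset Iio_subset_Iic_self).trans_lt (ii i)))).symm
  have u1 : ∀ i I, Iic i ⊆ I → P (T I) (u i) = u i := fun i I h => by
    rw [hu, map_sub, (p2 _ _ (mT _ _ (Iio_subset_Iic_self.trans h)) _).1,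
      p3 _ _ (hT I ▸ .inr ⟨i, h le_rfl, rfl⟩)]
  have u2 : ∀ i I, I ⊆ Iio i → P (T I) (u i) = 0 := fun i I h => by
    rw [hu, map_sub, (p2 _ _ (mT _ _ h) _).2, sub_self]
  have u3 : ∀ f : X →L[ℝ] ℝ, {i | f (u i) ≠ 0}.Countable := fun f => by
    refine (countable_iUnion fun n : ℕ => Finite.countable (s := {i | 1 / (n + 1 : ℝ) ≤ |f (u i)|})
      (by_contra fun I => ?_)).mono fun i h => mem_iUnion.2
        ((exists_nat_one_div_lt (abs_pos.2 h)).imp fun (n : ℕ) (k : 1 / (n + 1 : ℝ) < _) => k.le)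
    obtain ⟨φ, hφ⟩ := (wellQuasiOrdered_le (α := ι)).exists_monotone_subseq
      fun n => (Set.Infinite.natEmbedding _ I n).1
    obtain ⟨i, i1, i2⟩ : ∃ i : ℕ → ι, StrictMono i ∧ ∀ m, 1 / (n + 1 : ℝ) ≤ |f (u (i m))| :=
      ⟨fun n => (Set.Infinite.natEmbedding _ I (φ n)).1, fun m n h =>
        (hφ m n h.le).lt_of_ne fun a =>
        h.ne (φ.injective ((Set.Infinite.natEmbedding _ I).injective (Subtype.ext a))),
        fun n => (Set.Infinite.natEmbedding _ I (φ n)).2⟩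
    refine (nul κ j hj hM (fun n => P (T (Iio (i n)))) (fun n => p1 _) (fun m n h z =>
      (p2 _ _ (mT _ _ (Iio_subset_Iio (i1.monotone h))) z).1) (fun n => u (i n)) (fun n g => ?_)
      (fun n => u1 _ _ (Iic_subset_Iio.2 (i1 n.lt_succ_self))) (fun m n h => u2 _ _
        (Iio_subset_Iio (i1.monotone h))) f Nat.one_div_pos_of_nat).elim
      fun m hm => hm.not_ge (i2 m)
    rw [hu, map_sub, two_mul]
    exact (abs_sub _ _).trans (add_le_add (hj g _ ▸ (j g).norm_coe_le_norm _) (p5 _ _ g))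
  choose N N1 N2 using exists_dual_vector'' ℝ (E := X)
  refine ⟨ι, inferInstance, mk_ne_zero_iff.1 (ic ▸ (aleph0_pos.trans a0).ne'),
    fun i => P (T (Iic i)), fun i => ‖u i‖⁻¹ • u i,
    fun i => (N (u i)).comp (P (T (Iic i)) - P (T (Iio i))), τ, τ.injective, fun i => p1 _,
    fun i l h => p2 _ _ (mT _ _ (Iic_subset_Iic.2 h)), fun i => ⟨by simp [norm_smul, u0 i],
      fun x => ((N (u i)).le_opNorm _).trans ((mul_le_of_le_one_left (norm_nonneg _) (N1 _)).trans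
      ((norm_sub_le _ _).trans ((add_le_add (p1 _ x) (p1 _ x)).trans_eq (two_mul _).symm))), by
      simp [u1 i _ le_rfl, u2 i _ le_rfl, N2, u0 i]⟩, fun i l h => ?_, fun x ε hε i => ?_,
    fun S i s => by_contra fun h => ?_⟩
  · rcases h.lt_or_gt with h | h
    · simp [u2 l _ (Iic_subset_Iio.2 h), u2 l _ (Iio_subset_Iio h.le)]
    · simp [u1 l _ (Iic_subset_Iio.2 h), u1 l _ (Iic_subset_Iic.2 h.le)]
  · obtain ⟨y, hy, a⟩ := Metric.mem_closure_iff.1 (hD x) _ (half_pos hε)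
    refine ⟨max i (d.symm ⟨y, hy⟩), le_max_left _ _, ?_⟩
    have := p1 (T (Iic (max i (d.symm ⟨y, hy⟩)))) (x - y)
    rw [map_sub, p3 _ y (hT _ ▸ .inl ⟨_, le_max_right _ _, by simp⟩)] at this
    rw [dist_eq_norm] at a
    linarith [norm_sub_le_norm_sub_add_norm_sub (P (T (Iic (max i (d.symm ⟨y, hy⟩)))) x) y x,
      norm_sub_rev y x]
  · push Not at h
    have h1 : #ι ≤ #(⋃ g : B (T (Iic i)), {t | g.1 (S (u t)) ≠ 0}) := mk_le_of_injective
      (f := fun a => ⟨τ (a :: s), by_contra fun c => h a (p4 _ _ fun g hg => by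
        simp only [mem_iUnion, not_exists, mem_ofPred_eq, not_not] at c
        simp [c ⟨g, hg⟩])⟩) fun a b c => (List.cons.inj (τ.injective (congrArg Subtype.val c))).1
    refine (h1.trans (mk_iUnion_le _)).not_gt (ic ▸ mul_lt_of_lt a0.le ((p0 _).2.trans_lt
      (max_lt (cT _ (ii i)) a0)) ((ciSup_le' fun g => ?_).trans_lt a0))
    exact le_aleph0_iff_set_countable.2 (u3 (g.1.comp S))

end Pool.Agent.H.MP_11e589
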