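import Pool.Agent.H.MP_11e589.C

namespace Pool.Agent.H.MP_11e589

open Filter Topology Set Finset

variable {X : Type} [NormedAddCommGroup X] [NormedSpace ℝ X]

theorem ren {V I : Type} [NormedAddCommGroup V] [NormedSpace ℝ V] (A : I → X →L[ℝ] V) {c C : ℝ}
    (C0 : 0 ≤ C) (c0 : 0 ≤ c) (h1 : ∀ i x, ‖A i x‖ ≤ C * ‖x‖) (i0 : I)
    (h2 : ∀ x, ‖x‖ ≤ c * ‖A i0 x‖) :
    ∃ (Y : Type) (_ : NormedAddCommGroup Y) (_ : NormedSpace ℝ Y) (e : X ≃L[ℝ] Y),
      (∀ i x, ‖A i x‖ ≤ ‖e x‖) ∧ ∀ x r, 0 ≤ r → (∀ i, ‖A i x‖ ≤ r) → ‖e x‖ ≤ r := by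
  obtain ⟨S, hS⟩ : ∃ S : X →ₗ[ℝ] lp (fun _ : I => V) ⊤, ∀ x i, S x i = A i x :=
    ⟨⟨⟨fun x => ⟨fun i => A i x, memℓp_infty ⟨_, forall_mem_range.2 fun i => h1 i x⟩⟩,
      fun a b => lp.ext (funext fun i => map_add (A i) a b)⟩,
      fun c a => lp.ext (funext fun i => map_smul (A i) c a)⟩, fun _ _ => rfl⟩
  have a : ∀ i x, ‖A i x‖ ≤ ‖S x‖ := fun i x =>
    hS x i ▸ lp.norm_apply_le_norm ENNReal.top_ne_zero (S x) i
  have b : ∀ x r, 0 ≤ r → (∀ i, ‖A i x‖ ≤ r) → ‖S x‖ ≤ r := fun x r r0 h =>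
    lp.norm_le_of_forall_le r0 fun i => hS x i ▸ h i
  have k : ∀ x, ‖x‖ ≤ c * ‖S x‖ := fun x => (h2 x).trans (mul_le_mul_of_nonneg_left (a _ _) c0)
  have i : Function.Injective S := (injective_iff_map_eq_zero S).2 fun x h => by simpa [h] using k x
  refine ⟨LinearMap.range S, inferInstance, inferInstance,
    (LinearEquiv.ofInjective S i).toContinuousLinearEquivOfBounds C c
      (fun x => b x _ (by positivity) fun i => h1 i x) fun y => ?_, a, b⟩
  obtain ⟨x, rfl⟩ := (LinearEquiv.ofInjective S i).surjective y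
  rw [LinearEquiv.symm_apply_apply]
  exact k x

theorem alt (E : ℕ → Prop) [DecidablePred E] (h : ∀ j, E (j + 1) → E j) (k : ℕ) :
    |∑ j ∈ range k, if E j then (-1 : ℝ) ^ j else 0| ≤ 1 := by
  have d : ∀ k, E k → ∀ j ≤ k, E j := fun k a j b => Nat.decreasingInduction (fun j _ => h j) a b
  obtain ⟨m, hm⟩ : ∃ m, (∑ j ∈ range k, if E j then (-1 : ℝ) ^ j else 0) =
      ∑ j ∈ range m, (-1 : ℝ) ^ j := by
    induction k with
    | zero => exact ⟨0, rfl⟩
    | succ k ih =>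
      by_cases a : E k
      · exact ⟨k + 1, sum_congr rfl fun j b => if_pos (d k a j (mem_range_succ_iff.1 b))⟩
      · simpa [sum_range_succ, a] using ih
  rw [hm, neg_one_geom_sum]
  split_ifs <;> simp

variable {ι : Type} [LinearOrder ι] {Q : ι → X →L[ℝ] X} (q1 : ∀ i z, ‖Q i z‖ ≤ ‖z‖)
  (q2 : ∀ i k, i ≤ k → ∀ z, Q k (Q i z) = Q i z ∧ Q i (Q k z) = Q i z)

include q1 q2 in
theorem wrd (w : List ι) (x : X) :
    ‖(w.map fun i => 1 - (2 : ℝ) • Q i).prod x‖ ≤ (2 * w.length + 1) * ‖x‖ := by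
  have c : ∀ i k, Commute (Q i) (Q k) := fun i k => ContinuousLinearMap.ext fun z => by
    rcases le_total i k with h | h
    exacts [(q2 i k h z).2.trans (q2 i k h z).1.symm, (q2 k i h z).1.trans (q2 k i h z).2.symm]
  have p := List.perm_insertionSort (· ≤ ·) w
  rw [← p.length_eq, ← (p.map _).prod_eq' (List.pairwise_map.2 (List.pairwise_of_forall fun i k =>
    (Commute.one_left _).sub_left ((Commute.one_right _).sub_right
      (((c i k).smul_left _).smul_right _))))]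
  have s := List.pairwise_insertionSort (· ≤ ·) w
  generalize List.insertionSort (· ≤ ·) w = v at s
  clear p
  induction v with
  | nil => simp
  | cons a v ih =>
    obtain ⟨s1, s2⟩ := List.pairwise_cons.1 s
    have k : ‖Q a ((v.map fun i => 1 - (2 : ℝ) • Q i).prod x)‖ = ‖Q a x‖ := by
      clear ih s s2
      induction v with
      | nil => simp
      | cons b v ih =>
        rw [← ih fun c h => s1 c (.tail _ h)]
        simp [(q2 a b (s1 b (.head _)) _).2, two_smul]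
    have := norm_sub_le ((v.map fun i => 1 - (2 : ℝ) • Q i).prod x)
      ((2 : ℝ) • Q a ((v.map fun i => 1 - (2 : ℝ) • Q i).prod x))
    rw [norm_smul, k, Real.norm_two] at this
    simp only [List.map_cons, List.prod_cons, List.length_cons, Nat.cast_succ]
    refine le_trans this ?_
    linarith [ih s2, q1 a x]

theorem sgn (α : ℕ → ι) (y : X) (j : ℕ) (h1 : ∀ i, j ≤ i → Q (α i) y = y)
    (h2 : ∀ i < j, Q (α i) y = 0) (m : ℕ) :
    (((List.range m).map α).map fun i => 1 - (2 : ℝ) • Q i).prod y = (-1 : ℝ) ^ (m - j) • y := by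
  induction m with
  | zero => simp
  | succ m ih =>
    simp only [List.range_succ, List.map_append, List.prod_append, List.map_cons, List.map_nil,
      List.prod_cons, List.prod_nil, mul_one, ContinuousLinearMap.mul_apply] at ih ⊢
    rcases le_or_gt j m with h | h
    · rw [show (1 - (2 : ℝ) • Q (α m)) y = -y by simp [h1 m h, two_smul], map_neg, ih,
        Nat.succ_sub h, pow_succ]
      simp
    · rw [show (1 - (2 : ℝ) • Q (α m)) y = y by simp [h2 m h], ih, Nat.sub_eq_zero_of_le h.le,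
        Nat.sub_eq_zero_of_le h]

include q1 q2 in
theorem good {n : ℕ} (n0 : 0 < n) :
    ∃ (Z : Type) (_ : NormedAddCommGroup Z) (_ : NormedSpace ℝ Z) (e : X ≃L[ℝ] Z),
      ∀ (x : ℕ → X) (α : ℕ → ι) (η : ℝ), Monotone α → (∀ j, ‖Q (α (j + 1)) (x j) - x j‖ ≤ η) →
        (∀ j, Q (α j) (x j) = 0) →
        ‖e (∑ j ∈ range n, x j)‖ ≤ 2 * ‖e (∑ j ∈ range n, (-1 : ℝ) ^ j • x j)‖ + 6 * n * η := by
  have n1 : (1 : ℝ) ≤ n := by exact_mod_cast n0
  have b : ∀ (w : List ι) x, ‖((n + w.length : ℝ)⁻¹ • (w.map fun i => 1 - (2 : ℝ) • Q i).prod) x‖ =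
      ‖(w.map fun i => 1 - (2 : ℝ) • Q i).prod x‖ / (n + w.length) := fun w x => by
    rw [_root_.smul_apply, norm_smul, Real.norm_of_nonneg (by positivity), inv_mul_eq_div]
  have b2 : ∀ (w : List ι) x,
      ‖((n + w.length : ℝ)⁻¹ • (w.map fun i => 1 - (2 : ℝ) • Q i).prod) x‖ ≤ 2 * ‖x‖ := fun w x => by
    rw [b, div_le_iff₀ (by positivity)]
    nlinarith [wrd q1 q2 w x, norm_nonneg x]
  obtain ⟨Z, _, _, e, e1, e2⟩ := ren (fun w : List ι =>
    (n + w.length : ℝ)⁻¹ • (w.map fun i => 1 - (2 : ℝ) • Q i).prod) zero_le_two n.cast_nonneg b2 []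
    fun x => by
      rw [b]
      simp
      field_simp
      rfl
  refine ⟨Z, _, _, e, fun x α η m h1 h2 => ?_⟩
  have k : ∀ c : ℕ → ℝ, (∀ j, |c j| = 1) → ‖e (∑ j ∈ range n, c j • Q (α (j + 1)) (x j)) -
      e (∑ j ∈ range n, c j • x j)‖ ≤ 2 * (n * η) := fun c hc => by
    rw [← map_sub, ← sum_sub_distrib]
    refine (e2 _ _ (by positivity) fun w => b2 w _).trans (mul_le_mul_of_nonneg_left
      ((norm_sum_le_of_le _ (n := fun _ => η) fun j _ => ?_).trans_eq (by simp)) zero_le_two)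
    rw [← smul_sub, norm_smul, Real.norm_eq_abs, hc, one_mul]
    exact h1 j
  have k1 := k (fun _ => 1) (by simp)
  have k2 := k (fun j => (-1) ^ j) (by simp)
  simp only [one_smul] at k1
  have k3 : ‖e (∑ j ∈ range n, Q (α (j + 1)) (x j))‖ ≤
      2 * ‖e (∑ j ∈ range n, (-1 : ℝ) ^ j • Q (α (j + 1)) (x j))‖ := by
    have : (((List.range n).map fun i => α (i + 1)).map fun i => 1 - (2 : ℝ) • Q i).prod
        (∑ j ∈ range n, (-1 : ℝ) ^ j • Q (α (j + 1)) (x j)) =
        (-1 : ℝ) ^ n • ∑ j ∈ range n, Q (α (j + 1)) (x j) := by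
      rw [map_sum, smul_sum]
      refine sum_congr rfl fun j hj => ?_
      rw [map_smul, sgn (fun i => α (i + 1)) _ j (fun i h => (q2 _ _ (m (Nat.succ_le_succ h)) _).1)
        fun i h => by rw [(q2 _ _ (m (Nat.succ_le_succ h.le)) _).2, ← (q2 _ _ (m h) _).2, h2,
          map_zero], smul_smul, ← pow_add, Nat.add_sub_cancel' (mem_range.1 hj).le]
    refine e2 _ _ (by positivity) fun w => ?_
    have a := e1 (w ++ (List.range n).map fun i => α (i + 1))
      (∑ j ∈ range n, (-1 : ℝ) ^ j • Q (α (j + 1)) (x j))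
    rw [b, List.map_append, List.prod_append, ContinuousLinearMap.mul_apply, this, map_smul,
      norm_smul, div_le_iff₀ (by positivity)] at a
    rw [b, div_le_iff₀ (by positivity)]
    simp only [norm_pow, norm_neg, norm_one, one_pow, one_mul, List.length_append, List.length_map,
      List.length_range, Nat.cast_add] at a
    nlinarith [norm_nonneg (e (∑ j ∈ range n, (-1 : ℝ) ^ j • Q (α (j + 1)) (x j))),
      w.length.cast_nonneg (α := ℝ)]
  linarith [norm_sub_norm_le (e (∑ j ∈ range n, (-1 : ℝ) ^ j • Q (α (j + 1)) (x j)))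
    (e (∑ j ∈ range n, (-1 : ℝ) ^ j • x j)), norm_sub_rev (e (∑ j ∈ range n, x j))
    (e (∑ j ∈ range n, Q (α (j + 1)) (x j))), norm_sub_norm_le (e (∑ j ∈ range n, x j))
    (e (∑ j ∈ range n, Q (α (j + 1)) (x j)))]

end Pool.Agent.H.MP_11e589
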