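import Pool.Agent.H.MP_11e589.D

namespace Pool.Agent.H.MP_11e589

open Filter Topology Set Finset

variable {X : Type} [NormedAddCommGroup X] [NormedSpace ℝ X]

theorem bad {ι : Type} (e : List ι → X) (φ : List ι → X →L[ℝ] ℝ) (f1 : ∀ i x, |φ i x| ≤ 2 * ‖x‖)
    (f2 : ∀ i, ‖e i‖ ≤ 1) (f3 : ∀ i, φ i (e i) = 1) (f4 : ∀ i k, i ≠ k → φ i (e k) = 0)
    {n : ℕ} (n0 : 0 < n) :
    ∃ (Y : Type) (_ : NormedAddCommGroup Y) (_ : NormedSpace ℝ Y) (E : X ≃L[ℝ] Y),
      ∀ s : ℕ → List ι, (∀ j, (s j).length = j ∧ (s (j + 1)).tail = s j) →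
        n ≤ ‖E (∑ j ∈ range n, e (s (j + 1)))‖ ∧
          ‖E (∑ j ∈ range n, (-1 : ℝ) ^ j • e (s (j + 1)))‖ ≤ 1 := by
  classical
  have n1 : (0 : ℝ) < n := by exact_mod_cast n0
  obtain ⟨Y, _, _, E, e1, e2⟩ := ren (fun p : Option ({s : ℕ → List ι //
    ∀ j, (s j).length = j ∧ (s (j + 1)).tail = s j} × Fin (n + 1)) =>
      ((n : ℝ)⁻¹ • ContinuousLinearMap.id ℝ X).prod
        (p.elim 0 fun p => ∑ j ∈ range p.2, φ (p.1.1 (j + 1)))) (C := 2 * n + 1) (by positivity)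
    n1.le (fun p x => by
      rw [ContinuousLinearMap.prod_apply, Prod.norm_mk]
      refine max_le ?_ ?_
      · simp only [_root_.smul_apply, ContinuousLinearMap.id_apply, norm_smul, norm_inv,
          Real.norm_natCast]
        gcongr
        exact (inv_le_one_of_one_le₀ (by exact_mod_cast n0)).trans (by linarith)
      · rcases p with _ | p
        · simp
          positivity
        · simp only [Option.elim_some, _root_.sum_apply]
          refine (norm_sum_le_of_le _ fun j _ => f1 _ x).trans ?_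
          have : (p.2 : ℝ) ≤ n := by exact_mod_cast p.2.is_le
          simp
          nlinarith [norm_nonneg x]) none fun x => by
      simp [norm_smul, mul_max_of_nonneg _ _ n1.le, n1.ne']
  have k : ∀ (s t : ℕ → List ι) (c : ℕ → ℝ), (∀ j, (s j).length = j) → (∀ j, (t j).length = j) →
      ∀ i < n, φ (t (i + 1)) (∑ j ∈ range n, c j • e (s (j + 1))) =
        if t (i + 1) = s (i + 1) then c i else 0 := fun s t c hs ht i hi => by
    rw [map_sum, sum_eq_single i (fun j _ h => by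
      rw [map_smul, f4 _ _ fun a => h (by simpa [hs, ht] using (congrArg List.length a).symm),
        smul_zero]) fun h => (h (mem_range.2 hi)).elim, map_smul]
    split_ifs with h
    · simp [h, f3]
    · simp [f4 _ _ h]
  refine ⟨Y, _, _, E, fun s hs => ⟨le_trans ?_ (e1 (some (⟨s, hs⟩, Fin.last n)) _),
    e2 _ _ zero_le_one fun p => ?_⟩⟩
  · rw [ContinuousLinearMap.prod_apply, Prod.norm_mk]
    refine le_max_of_le_right (le_trans (le_of_eq ?_) (le_abs_self _))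
    simp only [Option.elim_some, _root_.sum_apply, Fin.val_last]
    rw [sum_congr rfl fun i hi => by
      simpa using k s s (fun _ => 1) (fun j => (hs j).1) (fun j => (hs j).1) i (mem_range.1 hi)]
    simp
  · rw [ContinuousLinearMap.prod_apply, Prod.norm_mk]
    refine max_le ?_ ?_
    · simp only [_root_.smul_apply, ContinuousLinearMap.id_apply, norm_smul, norm_inv,
        Real.norm_natCast]
      rw [inv_mul_le_iff₀ n1]
      exact (norm_sum_le_of_le _ (n := fun _ => 1) fun j _ => by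
        simpa [norm_smul] using f2 _).trans_eq (by simp)
    · rcases p with _ | ⟨⟨t, ht⟩, m⟩
      · simp
      · simp only [Option.elim_some, _root_.sum_apply]
        rw [sum_congr rfl fun i hi => k s t _ (fun j => (hs j).1) (fun j => (ht j).1) i
          ((mem_range.1 hi).trans_le m.is_le)]
        exact alt (fun i => t (i + 1) = s (i + 1))
          (fun j h => by rw [← (ht _).2, ← (hs _).2, h]) m

theorem main [CompleteSpace X] (hs : ¬ TopologicalSpace.SeparableSpace X) {K : Set X}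
    (k1 : IsCompact ((toWeakSpace ℝ X) '' K)) (k2 : Dense (Submodule.span ℝ K : Set X)) (C : ℝ) :
    ∃ (Y : Type) (_ : NormedAddCommGroup Y) (_ : NormedSpace ℝ Y)
      (Z : Type) (_ : NormedAddCommGroup Z) (_ : NormedSpace ℝ Z),
      Nonempty (X ≃L[ℝ] Y) ∧ Nonempty (X ≃L[ℝ] Z) ∧
      ∀ T : Y ≃L[ℝ] Z, C < ‖(T : Y →L[ℝ] Z)‖ * ‖(T.symm : Z →L[ℝ] Y)‖ := by
  have := isCompact_iff_compactSpace.1 k1
  obtain ⟨κ, κ1, κ2⟩ : ∃ κ : (toWeakSpace ℝ X) '' K → X, range κ = K ∧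
      ∀ f : X →L[ℝ] ℝ, Continuous fun l => f (κ l) :=
    ⟨fun l => (toWeakSpace ℝ X).symm l.1, by ext; simp, fun f =>
      (WeakBilin.eval_continuous (topDualPairing ℝ X).flip f).comp continuous_subtype_val⟩
  have : Nonempty ((toWeakSpace ℝ X) '' K) := by
    rcases K.eq_empty_or_nonempty with rfl | h
    · exact (hs ⟨_, by simp, k2⟩).elim
    · exact (h.image _).to_subtype
  obtain ⟨M, hM⟩ := banach_steinhaus (g := fun l => NormedSpace.inclusionInDoubleDual ℝ X (κ l))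
    fun f => ⟨_, fun l => (ContinuousMap.mk _ (κ2 f)).norm_coe_le_norm l⟩
  obtain ⟨ι, _, ⟨i0⟩, Q, e, φ, τ, t, q1, q2, f1, f2, q3, q4⟩ := sys κ
    ⟨⟨fun f => ⟨_, κ2 f⟩, fun _ _ => rfl⟩, fun _ _ => rfl⟩ (fun _ _ => rfl) (M := M)
    (fun f => (ContinuousMap.norm_le_of_nonempty _).2 fun l =>
      ((NormedSpace.inclusionInDoubleDual ℝ X (κ l)).le_of_opNorm_le (hM l) f)) (κ1.symm ▸ k2) hs
  obtain ⟨n, hn⟩ := exists_nat_gt (2 * |C| + 1)
  have n1 : (0 : ℝ) < n := lt_trans (by positivity) hn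
  obtain ⟨Y, _, _, E, hE⟩ := bad (fun s => e (τ s)) (fun s => φ (τ s)) (fun s => (f1 _).2.1)
    (fun s => (f1 _).1) (fun s => (f1 _).2.2) (fun s r h => f2 _ _ (t.ne h)) (Nat.cast_pos.1 n1)
  obtain ⟨Z, _, _, G, hG⟩ := good q1 q2 (Nat.cast_pos.1 n1)
  refine ⟨Y, _, _, Z, _, _, ⟨E⟩, ⟨G⟩, fun T => ?_⟩
  obtain ⟨S, hS⟩ : ∃ S : X →L[ℝ] X, ∀ x, G (S x) = T (E x) :=
    ⟨((E.trans T).trans G.symm : X ≃L[ℝ] X), fun x => by simp⟩
  obtain ⟨η, η0, hη⟩ : ∃ η > 0, ‖(T.symm : Z →L[ℝ] Y)‖ * (6 * n * η) ≤ 1 :=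
    ⟨1 / (6 * n * (‖(T.symm : Z →L[ℝ] Y)‖ + 1)), by positivity, by
      field_simp
      simp⟩
  choose a ha using q4 S
  choose b b1 b2 using fun x => q3 x η η0
  obtain ⟨s, s0, s1⟩ : ∃ s : ℕ → List ι × ι, s 0 = ([], i0) ∧ ∀ j, s (j + 1) =
      (a (s j).2 (s j).1 :: (s j).1, b (S (e (τ (a (s j).2 (s j).1 :: (s j).1)))) (s j).2) :=
    ⟨fun j => Nat.rec (motive := fun _ => List ι × ι) ([], i0)
      (fun _ p => (a p.2 p.1 :: p.1, b (S (e (τ (a p.2 p.1 :: p.1)))) p.2)) j, rfl, fun _ => rfl⟩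
  obtain ⟨h1, h2⟩ := hE (fun j => (s j).1) fun j => ⟨by
    induction j with
    | zero => simp [s0]
    | succ j ih => simpa [s1] using ih, by simp [s1]⟩
  have h3 := hG (fun j => S (e (τ (s (j + 1)).1))) (fun j => (s j).2) η
    (monotone_nat_of_le_succ fun j => by rw [s1]; exact b1 _ _) (fun j => by rw [s1]; exact b2 _ _)
    fun j => by rw [s1]; exact ha _ _
  simp only [← map_smul, ← map_sum, hS] at h3
  have h4 := (T.symm : Z →L[ℝ] Y).le_of_opNorm_le_of_le le_rfl h3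
  have h5 := (T : Y →L[ℝ] Z).unit_le_opNorm _ h2
  simp only [ContinuousLinearEquiv.coe_coe, ContinuousLinearEquiv.symm_apply_apply] at h4 h5
  nlinarith [mul_le_mul_of_nonneg_left h5 (norm_nonneg (T.symm : Z →L[ℝ] Y)), le_abs_self C]

end Pool.Agent.H.MP_11e589
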